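import Pool.Agent.Helper42.Haag.Defs

/-! Part B2: subgroups of `GL_2(ℤ)` without hyperbolic pairs are virtually abelian. -/

set_option autoImplicit false

namespace Pool.Agent.Helper31.HG

open Matrix Pool.Agent.Helper42.Haag

lemma relIndex_ne_zero_of_map {G α : Type*} [Group G] [Finite α] {H K : Subgroup G} (f : G → α)
    (h : ∀ x ∈ K, ∀ y ∈ K, f x = f y → x⁻¹ * y ∈ H) : H.relIndex K ≠ 0 := by
  have : Finite (K ⧸ H.subgroupOf K) := by
    apply Finite.of_injective (fun q : K ⧸ H.subgroupOf K => f (q.out : K))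
    intro a b hab
    have h1 := h _ a.out.2 _ b.out.2 hab
    rw [← QuotientGroup.out_eq' a, ← QuotientGroup.out_eq' b, QuotientGroup.eq]
    exact Subgroup.mem_subgroupOf.2 h1
  exact Subgroup.index_ne_zero_of_finite

lemma cross_trans {a1 a2 a3 b1 b2 b3 c1 c2 c3 : ℤ} (ha : a1 ≠ 0 ∨ a2 ≠ 0 ∨ a3 ≠ 0)
    (h1 : a1 * b2 = a2 * b1) (h2 : a1 * b3 = a3 * b1) (h3 : a2 * b3 = a3 * b2)
    (k1 : a1 * c2 = a2 * c1) (k2 : a1 * c3 = a3 * c1) (k3 : a2 * c3 = a3 * c2) :
    b1 * c2 = b2 * c1 ∧ b1 * c3 = b3 * c1 ∧ b2 * c3 = b3 * c2 := by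
  rcases ha with h | h | h
  · refine ⟨mul_left_cancel₀ h ?_, mul_left_cancel₀ h ?_, mul_left_cancel₀ h ?_⟩
    · linear_combination b1 * k1 - c1 * h1
    · linear_combination b1 * k2 - c1 * h2
    · linear_combination c3 * h1 - c2 * h2 + b1 * k3
  · have e1 : b1 * c2 = b2 * c1 := mul_left_cancel₀ h (by linear_combination b2 * k1 - c2 * h1)
    have e3 : b2 * c3 = b3 * c2 := mul_left_cancel₀ h (by linear_combination b2 * k3 - c2 * h3)
    refine ⟨e1, mul_left_cancel₀ h ?_, e3⟩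
    linear_combination b1 * k3 - c1 * h3 + a3 * e1
  · have e2 : b1 * c3 = b3 * c1 := mul_left_cancel₀ h (by linear_combination b3 * k2 - c3 * h2)
    have e3 : b2 * c3 = b3 * c2 := mul_left_cancel₀ h (by linear_combination b3 * k3 - c3 * h3)
    refine ⟨mul_left_cancel₀ h ?_, e2, e3⟩
    linear_combination -c2 * h2 + b2 * k2 - a1 * e3

lemma comm_iff {A B : Matrix (Fin 2) (Fin 2) ℤ} : B * A = A * B ↔
    (A 0 1 * B 1 0 = A 1 0 * B 0 1 ∧ A 0 1 * (B 1 1 - B 0 0) = (A 1 1 - A 0 0) * B 0 1 ∧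
      A 1 0 * (B 1 1 - B 0 0) = (A 1 1 - A 0 0) * B 1 0) := by
  constructor
  · intro h
    have e : ∀ i j, (B * A) i j = (A * B) i j := fun i j => by rw [h]
    have e00 := e 0 0
    have e01 := e 0 1
    have e10 := e 1 0
    simp only [Matrix.mul_apply, Fin.sum_univ_two] at e00 e01 e10
    refine ⟨by linear_combination -e00, by linear_combination -e01, by linear_combination e10⟩
  · rintro ⟨h1, h2, h3⟩
    ext i j
    fin_cases i <;> fin_cases j <;>
      simp only [Matrix.mul_apply, Fin.sum_univ_two, Fin.zero_eta, Fin.mk_one, Fin.isValue]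
    · linear_combination -h1
    · linear_combination -h2
    · linear_combination h3
    · linear_combination h1

lemma comm_of_comm {A B C : Matrix (Fin 2) (Fin 2) ℤ}
    (hA : A 0 1 ≠ 0 ∨ A 1 0 ≠ 0 ∨ A 1 1 - A 0 0 ≠ 0) (hB : B * A = A * B) (hC : C * A = A * C) :
    C * B = B * C := by
  rw [comm_iff] at hB hC ⊢
  obtain ⟨h1, h2, h3⟩ := hB
  obtain ⟨k1, k2, k3⟩ := hC
  obtain ⟨l1, l2, l3⟩ := cross_trans hA h1 h2 h3 k1 k2 k3
  exact ⟨l1, l2, l3⟩

/-- the hyperbolic case -/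
lemma case_hyp (C : Subgroup (GL (Fin 2) ℤ)) {A : GL (Fin 2) ℤ}
    (h : ∀ B ∈ C, B * A = A * B ∨ A * B * A = B)
    (hs : (A : Matrix (Fin 2) (Fin 2) ℤ) 0 1 ≠ 0 ∨ (A : Matrix (Fin 2) (Fin 2) ℤ) 1 0 ≠ 0 ∨
      (A : Matrix (Fin 2) (Fin 2) ℤ) 1 1 - (A : Matrix (Fin 2) (Fin 2) ℤ) 0 0 ≠ 0) :
    VirtAbelian C := by
  classical
  refine ⟨C ⊓ Subgroup.centralizer {A}, inf_le_left, ?_, ?_⟩
  · apply relIndex_ne_zero_of_map (fun B => decide (B * A = A * B))
    intro x hx y hy hxy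
    refine Subgroup.mem_inf.2 ⟨mul_mem (inv_mem hx) hy, ?_⟩
    rw [Subgroup.mem_centralizer_singleton_iff]
    by_cases hc : x * A = A * x
    · have hc' : y * A = A * y := by simpa [hc] using hxy
      rw [mul_assoc, hc', ← mul_assoc, ← mul_assoc]
      congr 1
      rw [inv_mul_eq_iff_eq_mul, ← mul_assoc, hc]
      group
    · have hc' : ¬ y * A = A * y := by simpa [hc] using hxy
      have h1 : A * x * A = x := (h x hx).resolve_left hc
      have h2 : A * y * A = y := (h y hy).resolve_left hc'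
      have h3 : x⁻¹ = A⁻¹ * x⁻¹ * A⁻¹ := by
        conv_lhs => rw [← h1]
        group
      have h4 : A * x⁻¹ = x⁻¹ * A⁻¹ := by
        conv_lhs => rw [h3]
        group
      have h5 : A * y = y * A⁻¹ := by
        rw [eq_mul_inv_iff_mul_eq]; exact h2
      have h6 : y * A = A⁻¹ * y := by
        rw [eq_inv_mul_iff_mul_eq, ← mul_assoc]; exact h2
      rw [mul_assoc, h6, ← mul_assoc, ← mul_assoc, h4]
  · intro x hx y hy
    replace hx := (Subgroup.mem_inf.1 hx).2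
    replace hy := (Subgroup.mem_inf.1 hy).2
    rw [Subgroup.mem_centralizer_singleton_iff] at hx hy
    apply Units.ext
    have hx' : (x : Matrix (Fin 2) (Fin 2) ℤ) * A = A * x := by
      rw [← Units.val_mul, hx, Units.val_mul]
    have hy' : (y : Matrix (Fin 2) (Fin 2) ℤ) * A = A * y := by
      rw [← Units.val_mul, hy, Units.val_mul]
    rw [Units.val_mul, Units.val_mul]
    exact comm_of_comm hs hy' hx'

lemma inv_entries {g : GL (Fin 2) ℤ} (hg : (g : Matrix (Fin 2) (Fin 2) ℤ).det = 1) :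
    ((g⁻¹ : GL (Fin 2) ℤ) : Matrix (Fin 2) (Fin 2) ℤ) =
      !![(g : Matrix (Fin 2) (Fin 2) ℤ) 1 1, -(g : Matrix (Fin 2) (Fin 2) ℤ) 0 1;
        -(g : Matrix (Fin 2) (Fin 2) ℤ) 1 0, (g : Matrix (Fin 2) (Fin 2) ℤ) 0 0] := by
  rw [Matrix.coe_units_inv, Matrix.inv_def, hg, Matrix.adjugate_fin_two]
  simp

lemma det_mul_gl (x y : GL (Fin 2) ℤ) : ((x * y : GL (Fin 2) ℤ) : Matrix (Fin 2) (Fin 2) ℤ).det =
    (x : Matrix (Fin 2) (Fin 2) ℤ).det * (y : Matrix (Fin 2) (Fin 2) ℤ).det := by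
  rw [Units.val_mul, Matrix.det_mul]

lemma det_inv_mul {x y : GL (Fin 2) ℤ}
    (h : (x : Matrix (Fin 2) (Fin 2) ℤ).det = (y : Matrix (Fin 2) (Fin 2) ℤ).det) :
    ((x⁻¹ * y : GL (Fin 2) ℤ) : Matrix (Fin 2) (Fin 2) ℤ).det = 1 := by
  rw [det_mul_gl, ← h, ← det_mul_gl, inv_mul_cancel]
  simp

/-- the one-parameter group of a nilpotent matrix -/
def unip (x y z : ℤ) (m : ℤ) : Matrix (Fin 2) (Fin 2) ℤ := !![1 + m * x, m * y; m * z, 1 - m * x]

lemma unip_mul {x y z : ℤ} (hX : x ^ 2 + y * z = 0) (m k : ℤ) :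
    unip x y z m * unip x y z k = unip x y z (m + k) := by
  ext i j
  fin_cases i <;> fin_cases j <;>
    simp only [unip, Matrix.mul_apply, Fin.sum_univ_two, Fin.zero_eta, Fin.mk_one, Fin.isValue,
      Matrix.of_apply, Matrix.cons_val', Matrix.cons_val_zero, Matrix.cons_val_one,
      Matrix.cons_val_fin_one]
  · linear_combination m * k * hX
  · ring
  · ring
  · linear_combination m * k * hX

lemma unip_pow {x y z : ℤ} (hX : x ^ 2 + y * z = 0) (n : ℕ) :
    unip x y z 1 ^ n = unip x y z n := by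
  induction n with
  | zero =>
    ext i j
    fin_cases i <;> fin_cases j <;> simp [unip]
  | succ n ih => rw [pow_succ, ih, unip_mul hX]; push_cast; rfl

lemma comm_of_zero {x y z p q r s : ℤ} (hX : x ^ 2 + y * z = 0) (hd : p * s - q * r = 1)
    (ht : |p + s| ≤ 2) (hne : ¬ (x = 0 ∧ y = 0 ∧ z = 0)) (hT : x * p + y * r + z * q - x * s = 0) :
    y * r = z * q ∧ y * (s - p) = -2 * x * q ∧ z * (s - p) = -2 * x * r := by
  have ht2 : (p + s) ^ 2 ≤ 4 := by
    rw [← sq_abs]; nlinarith [abs_nonneg (p + s)]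
  have e1 : (2 * q * x - (p - s) * y) ^ 2 = y ^ 2 * ((p + s) ^ 2 - 4) := by
    linear_combination -4 * q * y * hT + 4 * q ^ 2 * hX - 4 * y ^ 2 * hd
  have e2 : (2 * r * x - (p - s) * z) ^ 2 = z ^ 2 * ((p + s) ^ 2 - 4) := by
    linear_combination -4 * r * z * hT + 4 * r ^ 2 * hX - 4 * z ^ 2 * hd
  have e3 : (2 * r * y + (p - s) * x) ^ 2 = x ^ 2 * ((p + s) ^ 2 - 4) := by
    linear_combination 4 * r * y * hT - 4 * q * r * hX - 4 * x ^ 2 * hd
  have e4 : (2 * q * z + (p - s) * x) ^ 2 = x ^ 2 * ((p + s) ^ 2 - 4) := by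
    linear_combination 4 * q * z * hT - 4 * q * r * hX - 4 * x ^ 2 * hd
  have h4 : (p + s) ^ 2 - 4 = 0 := by
    by_contra hne4
    have hlt : (p + s) ^ 2 - 4 < 0 := lt_of_le_of_ne (by linarith) hne4
    apply hne
    refine ⟨?_, ?_, ?_⟩
    · by_contra hx
      have : 0 < x ^ 2 := by positivity
      nlinarith [sq_nonneg (2 * r * y + (p - s) * x)]
    · by_contra hx
      have : 0 < y ^ 2 := by positivity
      nlinarith [sq_nonneg (2 * q * x - (p - s) * y)]
    · by_contra hx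
      have : 0 < z ^ 2 := by positivity
      nlinarith [sq_nonneg (2 * r * x - (p - s) * z)]
  rw [h4, mul_zero] at e1 e2 e3 e4
  have f1 := pow_eq_zero_iff (two_ne_zero) |>.1 e1
  have f2 := pow_eq_zero_iff (two_ne_zero) |>.1 e2
  have f3 := pow_eq_zero_iff (two_ne_zero) |>.1 e3
  have f4 := pow_eq_zero_iff (two_ne_zero) |>.1 e4
  refine ⟨by linarith, by linarith, by linarith⟩

lemma trace_formula {x y z p q r s : ℤ} (hX : x ^ 2 + y * z = 0) (hd : p * s - q * r = 1) :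
    (unip x y z 5 * (!![p, q; r, s] * unip x y z 1 * !![s, -q; -r, p])).trace =
      2 - 5 * (x * p + y * r + z * q - x * s) ^ 2 := by
  simp only [unip, Matrix.trace_fin_two, Matrix.mul_apply, Fin.sum_univ_two, Fin.isValue, Matrix.of_apply, Matrix.cons_val', Matrix.cons_val_zero,
    Matrix.cons_val_one, Matrix.cons_val_fin_one]
  linear_combination 2 * hd + 5 * (p ^ 2 + s ^ 2 + 2 * q * r) * hX

lemma det_unip {x y z : ℤ} (hX : x ^ 2 + y * z = 0) (m : ℤ) : (unip x y z m).det = 1 := by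
  rw [Matrix.det_fin_two]
  simp only [unip, Fin.isValue, Matrix.of_apply, Matrix.cons_val', Matrix.cons_val_zero,
    Matrix.cons_val_one, Matrix.cons_val_fin_one]
  linear_combination -m ^ 2 * hX

/-- the parabolic case -/
lemma case_par (C : Subgroup (GL (Fin 2) ℤ)) {u : GL (Fin 2) ℤ} (hu : u ∈ C) {x y z : ℤ}
    (hX : x ^ 2 + y * z = 0) (hne : ¬ (x = 0 ∧ y = 0 ∧ z = 0))
    (hu' : (u : Matrix (Fin 2) (Fin 2) ℤ) = unip x y z 1)
    (hC : ∀ A ∈ C, (A : Matrix (Fin 2) (Fin 2) ℤ).det = 1 →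
      |(A : Matrix (Fin 2) (Fin 2) ℤ).trace| ≤ 2) : VirtAbelian C := by
  have key : ∀ g ∈ C, (g : Matrix (Fin 2) (Fin 2) ℤ).det = 1 →
      (g : Matrix (Fin 2) (Fin 2) ℤ) * u = u * g := by
    intro g hg hdet
    have hd := hdet
    rw [Matrix.det_fin_two] at hd
    have ht := hC g hg hdet
    rw [Matrix.trace_fin_two] at ht
    have h1 := hC (u ^ 5 * (g * u * g⁻¹)) (mul_mem (pow_mem hu 5) (mul_mem (mul_mem hg hu)
      (inv_mem hg))) (by
        simp only [det_mul_gl, Units.val_pow_eq_pow_val, Matrix.det_pow, hu', det_unip hX, hdet]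
        rw [inv_entries hdet, Matrix.det_fin_two_of]
        linear_combination hd)
    simp only [Units.val_mul, Units.val_pow_eq_pow_val, hu', unip_pow hX, inv_entries hdet] at h1
    rw [Matrix.eta_fin_two (g : Matrix (Fin 2) (Fin 2) ℤ)] at h1
    simp only [Matrix.of_apply, Matrix.cons_val', Matrix.cons_val_zero,
      Matrix.cons_val_one, Matrix.cons_val_fin_one, Nat.cast_ofNat] at h1
    rw [trace_formula hX hd] at h1
    set T := x * (g : Matrix (Fin 2) (Fin 2) ℤ) 0 0 + y * (g : Matrix (Fin 2) (Fin 2) ℤ) 1 0 +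
      z * (g : Matrix (Fin 2) (Fin 2) ℤ) 0 1 - x * (g : Matrix (Fin 2) (Fin 2) ℤ) 1 1 with hTdef
    have hT : T = 0 := by
      by_contra hT
      have : 1 ≤ T ^ 2 := by
        have : 0 < T ^ 2 := by positivity
        omega
      have := (abs_le.1 h1).1
      omega
    obtain ⟨c1, c2, c3⟩ := comm_of_zero hX hd ht hne (hTdef ▸ hT)
    rw [comm_iff, hu']
    simp only [unip, Fin.isValue, Matrix.of_apply, Matrix.cons_val', Matrix.cons_val_zero,
      Matrix.cons_val_one, Matrix.cons_val_fin_one]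
    refine ⟨by linear_combination c1, by linear_combination c2, by linear_combination c3⟩
  have hs : (u : Matrix (Fin 2) (Fin 2) ℤ) 0 1 ≠ 0 ∨ (u : Matrix (Fin 2) (Fin 2) ℤ) 1 0 ≠ 0 ∨
      (u : Matrix (Fin 2) (Fin 2) ℤ) 1 1 - (u : Matrix (Fin 2) (Fin 2) ℤ) 0 0 ≠ 0 := by
    by_contra hcon
    push Not at hcon
    obtain ⟨a1, a2, a3⟩ := hcon
    rw [hu'] at a1 a2 a3
    simp only [unip, Fin.isValue, Matrix.of_apply, Matrix.cons_val', Matrix.cons_val_zero,
      Matrix.cons_val_one, Matrix.cons_val_fin_one, one_mul] at a1 a2 a3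
    exact hne ⟨by omega, a1, a2⟩
  refine ⟨C ⊓ (Matrix.GeneralLinearGroup.det (n := Fin 2) (R := ℤ)).ker, inf_le_left, ?_, ?_⟩
  · apply relIndex_ne_zero_of_map (Matrix.GeneralLinearGroup.det (n := Fin 2) (R := ℤ))
    intro a ha b hb hab
    refine Subgroup.mem_inf.2 ⟨mul_mem (inv_mem ha) hb, ?_⟩
    rw [MonoidHom.mem_ker, map_mul, map_inv, hab, inv_mul_cancel]
  · intro a ha b hb
    have hdet : ∀ g : GL (Fin 2) ℤ, g ∈ (Matrix.GeneralLinearGroup.det (n := Fin 2) (R := ℤ)).ker →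
        (g : Matrix (Fin 2) (Fin 2) ℤ).det = 1 := by
      intro g hg
      rw [MonoidHom.mem_ker] at hg
      rw [← Matrix.GeneralLinearGroup.val_det_apply, hg, Units.val_one]
    have h1 := key a (Subgroup.mem_inf.1 ha).1 (hdet a (Subgroup.mem_inf.1 ha).2)
    have h2 := key b (Subgroup.mem_inf.1 hb).1 (hdet b (Subgroup.mem_inf.1 hb).2)
    apply Units.ext
    rw [Units.val_mul, Units.val_mul]
    exact comm_of_comm hs h2 h1

/-- the elliptic case -/
lemma case_ell (C : Subgroup (GL (Fin 2) ℤ))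
    (hC : ∀ A ∈ C, (A : Matrix (Fin 2) (Fin 2) ℤ).det = 1 →
      |(A : Matrix (Fin 2) (Fin 2) ℤ).trace| ≤ 2)
    (hC2 : ∀ A ∈ C, (A : Matrix (Fin 2) (Fin 2) ℤ).det = 1 →
      (A : Matrix (Fin 2) (Fin 2) ℤ).trace = 2 → A = 1) : VirtAbelian C := by
  refine ⟨⊥, bot_le, ?_, ?_⟩
  · apply relIndex_ne_zero_of_map (fun g : GL (Fin 2) ℤ =>
      (Matrix.GeneralLinearGroup.map (n := Fin 2) (Int.castRingHom (ZMod 3)) g,
        Matrix.GeneralLinearGroup.det g))
    intro a ha b hb hab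
    simp only [Prod.mk.injEq] at hab
    obtain ⟨h1, h2⟩ := hab
    rw [Subgroup.mem_bot]
    set w := a⁻¹ * b with hw
    have hwC : w ∈ C := mul_mem (inv_mem ha) hb
    have hm : Matrix.GeneralLinearGroup.map (n := Fin 2) (Int.castRingHom (ZMod 3)) w = 1 := by
      rw [hw, map_mul, map_inv, h1, inv_mul_cancel]
    have hdet : (w : Matrix (Fin 2) (Fin 2) ℤ).det = 1 := by
      rw [← Matrix.GeneralLinearGroup.val_det_apply, hw, map_mul, map_inv, h2, inv_mul_cancel,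
        Units.val_one]
    have he : ∀ i j, (((w : Matrix (Fin 2) (Fin 2) ℤ) i j : ℤ) : ZMod 3) =
        (1 : Matrix (Fin 2) (Fin 2) (ZMod 3)) i j := by
      intro i j
      have := congrArg (fun g : GL (Fin 2) (ZMod 3) => (g : Matrix (Fin 2) (Fin 2) (ZMod 3)) i j) hm
      simpa using this
    have he00 : (3 : ℤ) ∣ (w : Matrix (Fin 2) (Fin 2) ℤ) 0 0 - 1 := by
      have := he 0 0
      apply (ZMod.intCast_zmod_eq_zero_iff_dvd _ 3).1
      push_cast
      rw [this]; simp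
    have he11 : (3 : ℤ) ∣ (w : Matrix (Fin 2) (Fin 2) ℤ) 1 1 - 1 := by
      have := he 1 1
      apply (ZMod.intCast_zmod_eq_zero_iff_dvd _ 3).1
      push_cast
      rw [this]; simp
    have he01 : (3 : ℤ) ∣ (w : Matrix (Fin 2) (Fin 2) ℤ) 0 1 := by
      have := he 0 1
      apply (ZMod.intCast_zmod_eq_zero_iff_dvd _ 3).1
      push_cast
      rw [this]; simp
    have he10 : (3 : ℤ) ∣ (w : Matrix (Fin 2) (Fin 2) ℤ) 1 0 := by
      have := he 1 0
      apply (ZMod.intCast_zmod_eq_zero_iff_dvd _ 3).1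
      push_cast
      rw [this]; simp
    obtain ⟨a1, b1⟩ := he00
    obtain ⟨a2, b2⟩ := he11
    obtain ⟨a3, b3⟩ := he01
    obtain ⟨a4, b4⟩ := he10
    have ht := hC w hwC hdet
    rw [Matrix.trace_fin_two] at ht
    have hd := hdet
    rw [Matrix.det_fin_two] at hd
    have c1 : (w : Matrix (Fin 2) (Fin 2) ℤ) 0 0 = 1 + 3 * a1 := by linarith
    have c2 : (w : Matrix (Fin 2) (Fin 2) ℤ) 1 1 = 1 + 3 * a2 := by linarith
    rw [c1, c2] at ht
    rw [c1, c2, b3, b4] at hd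
    have h3 : a1 + a2 + 3 * (a1 * a2 - a3 * a4) = 0 := by linarith
    have h4 : a1 + a2 = 0 := by
      have := abs_le.1 ht
      omega
    apply hC2 w hwC hdet
    rw [Matrix.trace_fin_two, c1, c2]
    linarith
  · intro a ha b hb
    rw [Subgroup.mem_bot] at ha hb
    rw [ha, hb]

theorem virtAbelian_of_no_pair (C : Subgroup (GL (Fin 2) ℤ))
    (h : ∀ A ∈ C, ∀ B ∈ C, (A : Matrix (Fin 2) (Fin 2) ℤ).det = 1 →
      2 < |(A : Matrix (Fin 2) (Fin 2) ℤ).trace| → B * A = A * B ∨ A * B * A = B) :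
    VirtAbelian C := by
  by_cases H1 : ∃ A ∈ C, (A : Matrix (Fin 2) (Fin 2) ℤ).det = 1 ∧
      2 < |(A : Matrix (Fin 2) (Fin 2) ℤ).trace|
  · obtain ⟨A, hA, hdet, htr⟩ := H1
    apply case_hyp C (A := A) (fun B hB => h A hA B hB hdet htr)
    left
    intro hb
    rw [Matrix.det_fin_two, hb] at hdet
    rw [Matrix.trace_fin_two] at htr
    have h3 : (A : Matrix (Fin 2) (Fin 2) ℤ) 0 0 * (A : Matrix (Fin 2) (Fin 2) ℤ) 1 1 = 1 := by
      linarith
    rcases Int.mul_eq_one_iff_eq_one_or_neg_one.1 h3 with ⟨h4, h5⟩ | ⟨h4, h5⟩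
    · rw [h4, h5] at htr; norm_num at htr
    · rw [h4, h5] at htr; norm_num at htr
  push Not at H1
  by_cases H2 : ∀ A ∈ C, (A : Matrix (Fin 2) (Fin 2) ℤ).det = 1 →
      (A : Matrix (Fin 2) (Fin 2) ℤ).trace = 2 → A = 1
  · exact case_ell C H1 H2
  push Not at H2
  obtain ⟨u, hu, hdet, htr, hne⟩ := H2
  rw [Matrix.det_fin_two] at hdet
  rw [Matrix.trace_fin_two] at htr
  refine case_par C hu (x := (u : Matrix (Fin 2) (Fin 2) ℤ) 0 0 - 1)
    (y := (u : Matrix (Fin 2) (Fin 2) ℤ) 0 1) (z := (u : Matrix (Fin 2) (Fin 2) ℤ) 1 0)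
    ?_ ?_ ?_ H1
  · linear_combination (u : Matrix (Fin 2) (Fin 2) ℤ) 0 0 * htr - hdet
  · rintro ⟨h1, h2, h3⟩
    apply hne
    apply Units.ext
    ext i j
    fin_cases i <;> fin_cases j <;>
      simp only [Fin.zero_eta, Fin.mk_one, Fin.isValue, Units.val_one, Matrix.one_apply]
    · simp; linarith
    · simpa using h2
    · simpa using h3
    · simp; linarith
  · rw [unip]
    ext i j
    fin_cases i <;> fin_cases j <;> simp
    linarith

end Pool.Agent.Helper31.HG
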