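import Pool.Agent.Helper42.Haag.Defs

/-! Part B3: Følner groups. -/

set_option autoImplicit false

namespace Pool.Agent.Helper31.HG

open Matrix Pool.Agent.Helper42 Pool.Agent.Helper42.Haag

open scoped Pointwise

open Classical in
lemma ncard_bad {G : Type*} [Group G] (F : Finset G) (s : G) :
    ({x ∈ F | s * x ∉ F} : Set G).ncard = (F.filter (fun x => s * x ∉ F)).card := by
  rw [← Set.ncard_coe_finset]
  congr 1
  ext x
  simp

open Classical in
lemma folner_iff {G : Type*} [Group G] : Folner G ↔ ∀ (S : Finset G) (ε : ℝ), 0 < ε →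
    ∃ F : Finset G, F.Nonempty ∧ ∀ s ∈ S, ((F.filter (fun x => s * x ∉ F)).card : ℝ) ≤ ε * F.card := by
  unfold Folner
  simp only [ncard_bad]

open Classical in
/-- Powers of a finite set in a commutative monoid grow polynomially. -/
lemma card_pow_le {H : Type*} [CommMonoid H] (E : Finset H) (n : ℕ) :
    (E ^ n).card ≤ (n + 1) ^ E.card := by
  have key : ∀ n : ℕ, ∀ x ∈ E ^ n, ∃ a : E → Fin (n + 1), x = ∏ e : E, (e : H) ^ (a e : ℕ) := by
    intro n
    induction n with
    | zero =>
      intro x hx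
      rw [pow_zero, Finset.mem_one] at hx
      exact ⟨fun _ => 0, by simp [hx]⟩
    | succ n ih =>
      intro x hx
      rw [pow_succ, Finset.mem_mul] at hx
      obtain ⟨y, hy, e0, he0, rfl⟩ := hx
      obtain ⟨a, rfl⟩ := ih y hy
      refine ⟨fun e => if e = ⟨e0, he0⟩ then (a e).succ else (a e).castSucc, ?_⟩
      have h1 : ∀ e : E, (e : H) ^ (((if e = ⟨e0, he0⟩ then (a e).succ else (a e).castSucc) :
          Fin (n + 1 + 1)) : ℕ) = (e : H) ^ (a e : ℕ) * (if e = ⟨e0, he0⟩ then e0 else 1) := by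
        intro e
        by_cases h : e = ⟨e0, he0⟩
        · rw [if_pos h, if_pos h, Fin.val_succ, pow_succ]
          rw [h]
        · rw [if_neg h, if_neg h, mul_one]
          rfl
      rw [Finset.prod_congr rfl (fun e _ => h1 e), Finset.prod_mul_distrib, Finset.prod_ite_eq']
      simp
  have h2 : E ^ n ⊆ Finset.univ.image (fun a : E → Fin (n + 1) => ∏ e : E, (e : H) ^ (a e : ℕ)) := by
    intro x hx
    obtain ⟨a, ha⟩ := key n x hx
    rw [Finset.mem_image]
    exact ⟨a, Finset.mem_univ _, ha.symm⟩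
  calc (E ^ n).card ≤ _ := Finset.card_le_card h2
    _ ≤ _ := Finset.card_image_le
    _ = (n + 1) ^ E.card := by
      rw [Finset.card_univ, Fintype.card_fun, Fintype.card_fin, Fintype.card_coe]

open Classical in
lemma exists_slow {H : Type*} [CommMonoid H] (E : Finset H) (hE : E.Nonempty) {ε : ℝ}
    (hε : 0 < ε) : ∃ n : ℕ, ((E ^ (n + 1)).card : ℝ) ≤ (1 + ε) * (E ^ n).card := by
  have hne : ∀ n : ℕ, (E ^ n).Nonempty := fun n => hE.pow
  by_contra hcon
  push Not at hcon
  have h1 : ∀ n : ℕ, (1 + ε) ^ n ≤ (E ^ n).card := by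
    intro n
    induction n with
    | zero => simp
    | succ n ih =>
      have h2 := hcon n
      rw [pow_succ]
      nlinarith
  have h2 : ∀ n : ℕ, (1 + ε) ^ n ≤ ((n : ℝ) + 1) ^ E.card := by
    intro n
    refine (h1 n).trans ?_
    exact_mod_cast card_pow_le E n
  have h3 := tendsto_pow_const_div_const_pow_of_one_lt E.card (show 1 < 1 + ε by linarith)
  have h4 : ∀ᶠ n : ℕ in Filter.atTop, (n : ℝ) ^ E.card / (1 + ε) ^ n < 1 / (1 + ε) :=
    h3.eventually (gt_mem_nhds (by positivity))
  obtain ⟨N, hN⟩ := Filter.eventually_atTop.1 h4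
  have h5 := hN (N + 1) (by omega)
  have h6 := h2 N
  rw [div_lt_iff₀ (by positivity), pow_succ] at h5
  push_cast at h5
  have h7 : 1 / (1 + ε) * ((1 + ε) ^ N * (1 + ε)) = (1 + ε) ^ N := by field_simp
  rw [h7] at h5
  linarith

theorem folner_of_comm {G : Type} [Group G] (h : ∀ x y : G, x * y = y * x) : Folner G := by
  classical
  rw [folner_iff]
  intro S ε hε
  let _ : CommGroup G := { ‹Group G› with mul_comm := h }
  set E : Finset G := insert 1 S with hE
  have h1 : (1 : G) ∈ E := Finset.mem_insert_self _ _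
  obtain ⟨n, hn⟩ := exists_slow E ⟨1, h1⟩ hε
  refine ⟨E ^ n, (show E.Nonempty from ⟨1, h1⟩).pow, ?_⟩
  intro s hs
  have hsub : E ^ n ⊆ E ^ (n + 1) := Finset.pow_subset_pow_right h1 (Nat.le_succ n)
  have h2 : ((E ^ n).filter (fun x => s * x ∉ E ^ n)).card ≤ (E ^ (n + 1) \ E ^ n).card := by
    apply Finset.card_le_card_of_injOn (fun x => s * x)
    · intro x hx
      rw [Finset.mem_coe, Finset.mem_filter] at hx
      rw [Finset.mem_coe, Finset.mem_sdiff]
      refine ⟨?_, hx.2⟩
      change s * x ∈ E ^ (n + 1)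
      rw [pow_succ', Finset.mem_mul]
      exact ⟨s, Finset.mem_insert_of_mem hs, x, hx.1, rfl⟩
    · intro x _ y _ hxy
      exact mul_left_cancel hxy
  rw [Finset.card_sdiff_of_subset hsub] at h2
  have h3 := Finset.card_le_card hsub
  have h4 : (((E ^ n).filter (fun x => s * x ∉ E ^ n)).card : ℝ) ≤
      (E ^ (n + 1)).card - (E ^ n).card := by
    rw [← Nat.cast_sub h3]
    exact_mod_cast h2
  linarith

theorem folner_of_finite {G : Type} [Group G] [Finite G] : Folner G := by
  classical
  rw [folner_iff]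
  intro S ε hε
  have _ := Fintype.ofFinite G
  refine ⟨Finset.univ, Finset.univ_nonempty, ?_⟩
  intro s _
  simp
  positivity

theorem folner_of_ker {G Q : Type} [Group G] [Group Q] (f : G →* Q) (hk : Folner f.ker)
    (hr : Folner f.range) : Folner G := by
  classical
  rw [folner_iff] at hk hr ⊢
  intro S ε hε
  have hsurj : ∀ r : f.range, ∃ g : G, f g = r := fun r => r.2
  choose σ hσ using hsurj
  obtain ⟨B, hBne, hB⟩ := hr (S.image f.rangeRestrict) (ε / 2) (by positivity)
  have hker : ∀ (s : G) (r : f.range), (σ (f.rangeRestrict s * r))⁻¹ * (s * σ r) ∈ f.ker := by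
    intro s r
    rw [MonoidHom.mem_ker, map_mul, map_inv, map_mul, hσ, hσ]
    simp
  let c : G → f.range → f.ker := fun s r => ⟨_, hker s r⟩
  have hc : ∀ s r, s * σ r = σ (f.rangeRestrict s * r) * (c s r : G) := by
    intro s r
    simp only [c]
    group
  obtain ⟨A, hAne, hA⟩ := hk ((S ×ˢ B).image (fun p => c p.1 p.2)) (ε / 2) (by positivity)
  have hinj : Function.Injective (fun p : f.range × f.ker => σ p.1 * (p.2 : G)) := by
    rintro ⟨r, k⟩ ⟨r', k'⟩ h
    simp only at h
    have h1 : r = r' := by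
      apply Subtype.ext
      have := congrArg f h
      rw [map_mul, map_mul, MonoidHom.mem_ker.1 k.2, MonoidHom.mem_ker.1 k'.2, mul_one, mul_one,
        hσ, hσ] at this
      exact this
    subst h1
    have h2 : k = k' := Subtype.ext (mul_left_cancel h)
    rw [h2]
  refine ⟨(B ×ˢ A).map ⟨_, hinj⟩, ?_, ?_⟩
  · rw [Finset.map_nonempty]
    exact hBne.product hAne
  intro s hs
  rw [Finset.card_map, Finset.card_product]
  set F := (B ×ˢ A).map ⟨_, hinj⟩ with hF
  have hsub : F.filter (fun x => s * x ∉ F) ⊆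
      (((B.filter (fun r => f.rangeRestrict s * r ∉ B)) ×ˢ A) ∪
      B.biUnion (fun r => (A.filter (fun k => c s r * k ∉ A)).image (fun k => (r, k)))).map
        ⟨_, hinj⟩ := by
    intro x hx
    rw [Finset.mem_filter, hF, Finset.mem_map] at hx
    obtain ⟨⟨⟨r, k⟩, hrk, rfl⟩, hx2⟩ := hx
    rw [Finset.mem_product] at hrk
    rw [Finset.mem_map]
    refine ⟨(r, k), ?_, rfl⟩
    rw [Finset.mem_union]
    by_cases h1 : f.rangeRestrict s * r ∈ B
    · right
      rw [Finset.mem_biUnion]
      refine ⟨r, hrk.1, Finset.mem_image.2 ⟨k, Finset.mem_filter.2 ⟨hrk.2, ?_⟩, rfl⟩⟩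
      intro h2
      apply hx2
      rw [Finset.mem_map]
      refine ⟨(f.rangeRestrict s * r, c s r * k), Finset.mem_product.2 ⟨h1, h2⟩, ?_⟩
      simp only [Function.Embedding.coeFn_mk, Subgroup.coe_mul]
      rw [← mul_assoc, ← hc, mul_assoc]
    · left
      exact Finset.mem_product.2 ⟨Finset.mem_filter.2 ⟨hrk.1, h1⟩, hrk.2⟩
  have h1 := Finset.card_le_card hsub
  rw [Finset.card_map] at h1
  have h2 := h1.trans (Finset.card_union_le _ _)
  rw [Finset.card_product] at h2
  have h3 : ((B.biUnion (fun r => (A.filter (fun k => c s r * k ∉ A)).image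
      (fun k => (r, k)))).card : ℝ) ≤ B.card * (ε / 2 * A.card) := by
    calc ((B.biUnion (fun r => (A.filter (fun k => c s r * k ∉ A)).image
      (fun k => (r, k)))).card : ℝ) ≤ ∑ r ∈ B, (((A.filter (fun k => c s r * k ∉ A)).image
      (fun k => (r, k))).card : ℝ) := by exact_mod_cast Finset.card_biUnion_le
      _ ≤ ∑ r ∈ B, (ε / 2 * A.card) := by
        apply Finset.sum_le_sum
        intro r hr
        have h7 := hA (c s r) (Finset.mem_image.2 ⟨(s, r), Finset.mem_product.2 ⟨hs, hr⟩, rfl⟩)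
        have h8 : ((A.filter (fun k => c s r * k ∉ A)).image (fun k => (r, k))).card ≤
          (A.filter (fun k => c s r * k ∉ A)).card := Finset.card_image_le
        have h9 : (((A.filter (fun k => c s r * k ∉ A)).image (fun k => (r, k))).card : ℝ) ≤
          (A.filter (fun k => c s r * k ∉ A)).card := by exact_mod_cast h8
        refine h9.trans (le_trans (le_of_eq ?_) h7)
        congr!
      _ = B.card * (ε / 2 * A.card) := by rw [Finset.sum_const, nsmul_eq_mul]
  have h4 : ((B.filter (fun r => f.rangeRestrict s * r ∉ B)).card : ℝ) ≤ ε / 2 * B.card := by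
    have := hB (f.rangeRestrict s) (Finset.mem_image_of_mem _ hs)
    refine le_trans (le_of_eq ?_) this
    congr!
  have h5 : ((F.filter (fun x => s * x ∉ F)).card : ℝ) ≤
      (B.filter (fun r => f.rangeRestrict s * r ∉ B)).card * A.card +
      (B.biUnion (fun r => (A.filter (fun k => c s r * k ∉ A)).image (fun k => (r, k)))).card := by
    exact_mod_cast h2
  have h6 : (0 : ℝ) ≤ A.card := Nat.cast_nonneg _
  have h10 := mul_le_mul_of_nonneg_right h4 h6
  have h11 : ((F.filter (fun x => s * x ∉ F)).card : ℝ) ≤ ε * (B.card * A.card) := by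
    linarith
  push_cast
  refine le_trans (le_of_eq ?_) h11
  congr!

/-! ### the Følner functions are conditionally negative definite -/

open Classical in
/-- `|kF ∖ gF|` as a function of `g⁻¹k` -/
noncomputable def bad {G : Type*} [Group G] (F : Finset G) (g : G) : ℝ :=
  (F.filter (fun x => g * x ∉ F)).card

lemma bad_nonneg {G : Type*} [Group G] (F : Finset G) (g : G) : 0 ≤ bad F g := Nat.cast_nonneg _

lemma bad_one {G : Type*} [Group G] (F : Finset G) : bad F 1 = 0 := by
  unfold bad
  simp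

open Classical in
lemma bad_inv {G : Type*} [Group G] (F : Finset G) (g : G) : bad F g⁻¹ = bad F g := by
  unfold bad
  have h : ∀ g : G, (F.filter (fun x => g * x ∈ F)).card + (F.filter (fun x => g * x ∉ F)).card =
      F.card := fun g => Finset.card_filter_add_card_filter_not _
  have h1 : (F.filter (fun x => g⁻¹ * x ∈ F)).card = (F.filter (fun x => g * x ∈ F)).card := by
    apply Finset.card_bij (fun x _ => g⁻¹ * x)
    · intro x hx
      rw [Finset.mem_filter] at hx ⊢
      refine ⟨hx.2, by simpa using hx.1⟩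
    · intro x _ y _ hxy
      exact mul_left_cancel hxy
    · intro y hy
      rw [Finset.mem_filter] at hy
      exact ⟨g * y, by rw [Finset.mem_filter]; exact ⟨hy.2, by simpa using hy.1⟩, by simp⟩
  have h2 := h g
  have h3 := h g⁻¹
  congr 1
  omega

open Classical in
lemma bad_eq {G : Type*} [Group G] (F : Finset G) (s : Finset G) (g k : G) (hk : k ∈ s) :
    bad F (g⁻¹ * k) = ∑ y ∈ s.biUnion (fun k => F.image (fun x => k * x)),
      (if k⁻¹ * y ∈ F then (1 : ℝ) else 0) * (1 - if g⁻¹ * y ∈ F then (1 : ℝ) else 0) := by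
  have h1 : ∀ y : G, (if k⁻¹ * y ∈ F then (1 : ℝ) else 0) *
      (1 - if g⁻¹ * y ∈ F then (1 : ℝ) else 0) =
      if (k⁻¹ * y ∈ F ∧ g⁻¹ * y ∉ F) then 1 else 0 := by
    intro y
    by_cases h1 : k⁻¹ * y ∈ F <;> by_cases h2 : g⁻¹ * y ∈ F <;> simp [h1, h2]
  simp only [h1]
  rw [Finset.sum_boole]
  unfold bad
  congr 1
  apply Finset.card_bij (fun x _ => k * x)
  · intro x hx
    rw [Finset.mem_filter] at hx
    rw [Finset.mem_filter, Finset.mem_biUnion]
    refine ⟨⟨k, hk, Finset.mem_image_of_mem _ hx.1⟩, by simpa using hx.1, ?_⟩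
    rw [← mul_assoc]; exact hx.2
  · intro x _ y _ hxy
    exact mul_left_cancel hxy
  · intro y hy
    rw [Finset.mem_filter] at hy
    refine ⟨k⁻¹ * y, ?_, by simp⟩
    rw [Finset.mem_filter]
    refine ⟨hy.2.1, ?_⟩
    have : g⁻¹ * k * (k⁻¹ * y) = g⁻¹ * y := by group
    rw [this]; exact hy.2.2

open Classical in
lemma bad_cnd {G : Type*} [Group G] (F : Finset G) (s : Finset G) (c : G → ℝ)
    (hc : ∑ g ∈ s, c g = 0) : ∑ g ∈ s, ∑ k ∈ s, c g * c k * bad F (g⁻¹ * k) ≤ 0 := by
  set Y := s.biUnion (fun k => F.image (fun x => k * x)) with hY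
  have h1 : ∑ g ∈ s, ∑ k ∈ s, c g * c k * bad F (g⁻¹ * k) =
      ∑ y ∈ Y, (∑ k ∈ s, c k * (if k⁻¹ * y ∈ F then (1 : ℝ) else 0)) *
        (∑ g ∈ s, c g * (1 - if g⁻¹ * y ∈ F then (1 : ℝ) else 0)) := by
    have : ∀ g ∈ s, ∀ k ∈ s, c g * c k * bad F (g⁻¹ * k) = ∑ y ∈ Y,
        (c k * (if k⁻¹ * y ∈ F then (1 : ℝ) else 0)) *
        (c g * (1 - if g⁻¹ * y ∈ F then (1 : ℝ) else 0)) := by
      intro g _ k hk
      rw [bad_eq F s g k hk, Finset.mul_sum]
      apply Finset.sum_congr rfl
      intro y _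
      ring
    rw [Finset.sum_congr rfl (fun g hg => Finset.sum_congr rfl (fun k hk => this g hg k hk))]
    simp only [Finset.sum_mul_sum]
    rw [Finset.sum_comm]
    conv_lhs =>
      enter [2, k]
      rw [Finset.sum_comm]
    rw [Finset.sum_comm]
  rw [h1]
  apply Finset.sum_nonpos
  intro y _
  have h2 : ∑ g ∈ s, c g * (1 - if g⁻¹ * y ∈ F then (1 : ℝ) else 0) =
      -∑ k ∈ s, c k * (if k⁻¹ * y ∈ F then (1 : ℝ) else 0) := by
    simp only [mul_sub, mul_one]
    rw [Finset.sum_sub_distrib, hc, zero_sub]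
  rw [h2]
  nlinarith [mul_self_nonneg (∑ k ∈ s, c k * (if k⁻¹ * y ∈ F then (1 : ℝ) else 0))]

open Classical in
lemma bad_far {G : Type*} [Group G] (F : Finset G) (g : G)
    (hg : g ∉ Finset.image₂ (fun a b => a * b⁻¹) F F) : bad F g = F.card := by
  unfold bad
  congr 2
  rw [Finset.filter_eq_self]
  intro x hx hgx
  apply hg
  rw [Finset.mem_image₂]
  exact ⟨g * x, hgx, x, hx, by simp⟩

theorem haagerup_of_folner {G : Type} [Group G] [Countable G] (h : Folner G) : Haagerup G := by
  classical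
  rw [folner_iff] at h
  obtain ⟨e, he⟩ := exists_surjective_nat G
  have h1 : ∀ n : ℕ, ∃ F : Finset G, F.Nonempty ∧ ∀ s ∈ (Finset.range n).image e,
      bad F s ≤ (1 / 2) ^ n * F.card := by
    intro n
    obtain ⟨F, hF, hF2⟩ := h ((Finset.range n).image e) ((1 / 2) ^ n) (by positivity)
    refine ⟨F, hF, fun s hs => ?_⟩
    refine le_trans (le_of_eq ?_) (hF2 s hs)
    unfold bad
    congr!
  choose F hF hF2 using h1
  have hpos : ∀ n, (0 : ℝ) < (F n).card := fun n => by
    exact_mod_cast (hF n).card_pos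
  set ψ : ℕ → G → ℝ := fun n g => bad (F n) g / (F n).card with hψ
  have hψ0 : ∀ n g, 0 ≤ ψ n g := fun n g => div_nonneg (bad_nonneg _ _) (hpos n).le
  have hsmall : ∀ n g, g ∈ (Finset.range n).image e → ψ n g ≤ (1 / 2) ^ n := by
    intro n g hg
    simp only [hψ]
    rw [div_le_iff₀ (hpos n)]
    exact hF2 n g hg
  have hsum : ∀ g, Summable (fun n => ψ n g) := by
    intro g
    obtain ⟨m, rfl⟩ := he g
    rw [← summable_nat_add_iff (m + 1)]
    apply Summable.of_nonneg_of_le (fun n => hψ0 _ _) (f := fun n => (1 / 2 : ℝ) ^ (n + (m + 1)))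
    · intro n
      apply hsmall
      exact Finset.mem_image_of_mem _ (Finset.mem_range.2 (by omega))
    · exact (summable_nat_add_iff (m + 1)).2 summable_geometric_two
  refine ⟨fun g => ∑' n, ψ n g, ⟨?_, ?_, ?_⟩, ?_⟩
  · simp [hψ, bad_one]
  · intro g
    simp only [hψ, bad_inv]
  · intro s c hc
    have hs : HasSum (fun n => ∑ g ∈ s, ∑ k ∈ s, c g * c k * ψ n (g⁻¹ * k))
        (∑ g ∈ s, ∑ k ∈ s, c g * c k * ∑' n, ψ n (g⁻¹ * k)) := by
      apply hasSum_sum
      intro g _
      apply hasSum_sum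
      intro k _
      exact (hsum _).hasSum.mul_left _
    refine hasSum_le (fun n => ?_) hs hasSum_zero
    have h2 := bad_cnd (F n) s c hc
    have h3 : ∑ g ∈ s, ∑ k ∈ s, c g * c k * ψ n (g⁻¹ * k) =
        (∑ g ∈ s, ∑ k ∈ s, c g * c k * bad (F n) (g⁻¹ * k)) / (F n).card := by
      rw [Finset.sum_div]
      apply Finset.sum_congr rfl
      intro g _
      rw [Finset.sum_div]
      apply Finset.sum_congr rfl
      intro k _
      simp only [hψ]
      ring
    rw [h3]
    exact div_nonpos_of_nonpos_of_nonneg h2 (hpos n).le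
  · intro C
    obtain ⟨N, hN⟩ := exists_nat_gt C
    apply Set.Finite.subset (Finset.finite_toSet
      ((Finset.range N).biUnion (fun n => Finset.image₂ (fun a b => a * b⁻¹) (F n) (F n))))
    intro g hg
    by_contra hcon
    rw [Finset.mem_coe, Finset.mem_biUnion] at hcon
    push Not at hcon
    have h2 : ∑ n ∈ Finset.range N, ψ n g ≤ ∑' n, ψ n g :=
      (hsum g).sum_le_tsum _ (fun n _ => hψ0 n g)
    have h3 : ∑ n ∈ Finset.range N, ψ n g = N := by
      have : ∀ n ∈ Finset.range N, ψ n g = 1 := by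
        intro n hn
        simp only [hψ]
        rw [bad_far _ _ (hcon n hn), div_self (hpos n).ne']
      rw [Finset.sum_congr rfl this]; simp
    have h4 : ∑' n, ψ n g ≤ C := hg
    linarith

/-! ### amenable affine groups -/

lemma eq_trans_of_linPart {g : planeStab} (hg : linPart g = 1) :
    g.1 = Haag.trans (g.1 0 2) (g.1 1 2) := by
  obtain ⟨g, h1, h2⟩ := g
  have h3 : (linM ⟨g, h1, h2⟩) = 1 := by
    have := congrArg (fun x : GL (Fin 2) ℤ => (x : Matrix (Fin 2) (Fin 2) ℤ)) hg
    simpa [linPart] using this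
  have h00 : g 0 0 = 1 := by
    have := congrFun (congrFun h3 0) 0
    simpa [linM] using this
  have h01 : g 0 1 = 0 := by
    have := congrFun (congrFun h3 0) 1
    simpa [linM] using this
  have h10 : g 1 0 = 0 := by
    have := congrFun (congrFun h3 1) 0
    simpa [linM] using this
  have h11 : g 1 1 = 1 := by
    have := congrFun (congrFun h3 1) 1
    simpa [linM] using this
  have hd := g.2
  rw [Matrix.det_fin_three] at hd
  have h22 : g 2 2 = 1 := by
    simp only [h00, h01, h10, h11, h1, h2] at hd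
    linarith
  ext i j
  fin_cases i <;> fin_cases j <;> simp [Haag.trans, h00, h01, h10, h11, h1, h2, h22]

lemma trans_mul (a b c d : ℤ) :
    Haag.trans a b * Haag.trans c d = Haag.trans (a + c) (b + d) := by
  ext i j
  rw [Matrix.SpecialLinearGroup.coe_mul, Matrix.mul_apply, Fin.sum_univ_three]
  fin_cases i <;> fin_cases j <;> simp [Haag.trans, add_comm]

lemma affineOver_le (C : Subgroup (GL (Fin 2) ℤ)) : affineOver C ≤ planeStab := by
  rintro g ⟨p, _, rfl⟩
  exact p.2

/-- linear part on `affineOver C` -/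
def linC (C : Subgroup (GL (Fin 2) ℤ)) : affineOver C →* C :=
  (linPart.comp (Subgroup.inclusion (affineOver_le C))).codRestrict C (by
    rintro ⟨g, p, hp, rfl⟩
    exact hp)

theorem haagerup_affineOver (C : Subgroup (GL (Fin 2) ℤ)) (hC : VirtAbelian C) :
    Haagerup (affineOver C) := by
  have hcount : Countable (affineOver C) := by
    have h1 : Countable (Matrix (Fin 3) (Fin 3) ℤ) := inferInstanceAs (Countable (Fin 3 → Fin 3 → ℤ))
    have h2 : Countable SL3 := inferInstanceAs (Countable {A : Matrix (Fin 3) (Fin 3) ℤ // A.det = 1})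
    infer_instance
  apply haagerup_of_folner
  obtain ⟨A, hAC, hA, hcomm⟩ := hC
  have hfin : (A.subgroupOf C).FiniteIndex := ⟨hA⟩
  set N := (A.subgroupOf C).normalCore with hN
  have hNfin : N.FiniteIndex := by rw [hN]; infer_instance
  have hNle : N ≤ A.subgroupOf C := Subgroup.normalCore_le _
  set f : affineOver C →* C ⧸ N := (QuotientGroup.mk' N).comp (linC C) with hf
  have hfinQ : Finite (C ⧸ N) := Subgroup.finite_quotient_of_finiteIndex
  apply folner_of_ker f
  · apply folner_of_ker ((linC C).comp f.ker.subtype)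
    · apply folner_of_comm
      rintro ⟨⟨x, hx⟩, hx2⟩ ⟨⟨y, hy⟩, hy2⟩
      have key : ∀ z : affineOver C, linC C z = 1 → ∃ a b : ℤ, (z : SL3) = Haag.trans a b := by
        intro z hz
        have h1 : linPart (Subgroup.inclusion (affineOver_le C) z) = 1 := by
          have := congrArg (fun w : C => (w : GL (Fin 2) ℤ)) hz
          simpa [linC] using this
        exact ⟨_, _, eq_trans_of_linPart h1⟩
      obtain ⟨a, b, hab⟩ := key x hx2
      obtain ⟨c, d, hcd⟩ := key y hy2
      apply Subtype.ext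
      apply Subtype.ext
      apply Subtype.ext
      change (x : SL3) * (y : SL3) = (y : SL3) * (x : SL3)
      rw [hab, hcd, trans_mul, trans_mul, add_comm a, add_comm b]
    · apply folner_of_comm
      rintro ⟨x, ⟨⟨x', hx1⟩, hx2⟩⟩ ⟨y, ⟨⟨y', hy1⟩, hy2⟩⟩
      apply Subtype.ext
      apply Subtype.ext
      have key : ∀ z : affineOver C, z ∈ f.ker → (linC C z : GL (Fin 2) ℤ) ∈ A := by
        intro z hz
        rw [MonoidHom.mem_ker, hf, MonoidHom.comp_apply, QuotientGroup.mk'_apply,
          QuotientGroup.eq_one_iff] at hz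
        exact Subgroup.mem_subgroupOf.1 (hNle hz)
      have h1 : (x : GL (Fin 2) ℤ) ∈ A := by
        rw [← hx2]; exact key x' hx1
      have h2 : (y : GL (Fin 2) ℤ) ∈ A := by
        rw [← hy2]; exact key y' hy1
      exact hcomm _ h1 _ h2
  · exact folner_of_finite

end Pool.Agent.Helper31.HG
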