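import Pool.Agent.Helper42.Haag.Defs

/-! Part H: sector functions for a hyperbolic pair. -/

set_option autoImplicit false

namespace Pool.Agent.Helper31.HG

open Matrix Pool.Agent.Helper42.Haag

/-- a linear form on the plane -/
def lf (p q : ℝ) (x : Fin 2 → ℝ) : ℝ := p * x 0 + q * x 1

/-- the sector function of two linear forms -/
noncomputable def sec (p q p' q' R : ℝ) (x : Fin 2 → ℝ) : ℝ :=
  (lf p q x) ^ 2 / ((lf p q x) ^ 2 + R * (lf p' q' x) ^ 2)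

lemma norm_pos {x : Fin 2 → ℝ} (hx : x ≠ 0) : 0 < x 0 ^ 2 + x 1 ^ 2 := by
  by_contra h
  apply hx
  have h0 : x 0 = 0 := by nlinarith [sq_nonneg (x 0), sq_nonneg (x 1)]
  have h1 : x 1 = 0 := by nlinarith [sq_nonneg (x 0), sq_nonneg (x 1)]
  ext i; fin_cases i
  · exact h0
  · exact h1

lemma cramer (p q p' q' : ℝ) (x : Fin 2 → ℝ) :
    (p * q' - q * p') ^ 2 * (x 0 ^ 2 + x 1 ^ 2) ≤
      ((lf p q x) ^ 2 + (lf p' q' x) ^ 2) * (p ^ 2 + q ^ 2 + p' ^ 2 + q' ^ 2) := by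
  have e0 : (p * q' - q * p') * x 0 = lf p q x * q' - lf p' q' x * q := by unfold lf; ring
  have e1 : (p * q' - q * p') * x 1 = lf p' q' x * p - lf p q x * p' := by unfold lf; ring
  have h : (p * q' - q * p') ^ 2 * (x 0 ^ 2 + x 1 ^ 2) =
      (lf p q x * q' - lf p' q' x * q) ^ 2 + (lf p' q' x * p - lf p q x * p') ^ 2 := by
    rw [← e0, ← e1]; ring
  rw [h]
  nlinarith [sq_nonneg (lf p q x * q + lf p' q' x * q'), sq_nonneg (lf p q x * p + lf p' q' x * p')]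

lemma lf_le (p q : ℝ) (x : Fin 2 → ℝ) :
    (lf p q x) ^ 2 ≤ (p ^ 2 + q ^ 2) * (x 0 ^ 2 + x 1 ^ 2) := by
  unfold lf
  nlinarith [sq_nonneg (p * x 1 - q * x 0)]

lemma den_pos {p q p' q' R : ℝ} (hR : 0 < R) (h : p * q' - q * p' ≠ 0) {x : Fin 2 → ℝ}
    (hx : x ≠ 0) : 0 < (lf p q x) ^ 2 + R * (lf p' q' x) ^ 2 := by
  have h1 := cramer p q p' q' x
  have h2 : 0 < (p * q' - q * p') ^ 2 * (x 0 ^ 2 + x 1 ^ 2) :=
    mul_pos (by positivity) (norm_pos hx)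
  by_contra h3
  have ha := sq_nonneg (lf p q x)
  have hb := mul_nonneg hR.le (sq_nonneg (lf p' q' x))
  have ha0 : (lf p q x) ^ 2 = 0 := by linarith
  have hb0 : (lf p' q' x) ^ 2 = 0 := by
    have : R * (lf p' q' x) ^ 2 = 0 := by linarith
    rcases mul_eq_zero.1 this with h4 | h4
    · exact absurd h4 hR.ne'
    · exact h4
  rw [ha0, hb0] at h1
  linarith

lemma sec_nonneg {p q p' q' R : ℝ} (hR : 0 < R) (x : Fin 2 → ℝ) : 0 ≤ sec p q p' q' R x := by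
  unfold sec; positivity

lemma sec_le_one {p q p' q' R : ℝ} (hR : 0 < R) (x : Fin 2 → ℝ) : sec p q p' q' R x ≤ 1 := by
  unfold sec
  apply div_le_one_of_le₀
  · have := mul_nonneg hR.le (sq_nonneg (lf p' q' x)); linarith
  · positivity

lemma isSector_sec {p q p' q' R : ℝ} (hR : 0 < R) (h : p * q' - q * p' ≠ 0) :
    IsSector (sec p q p' q' R) where
  cont := by
    unfold sec
    apply ContinuousOn.div
    · unfold lf; fun_prop
    · unfold lf; fun_prop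
    · intro x hx
      exact (den_pos hR h hx).ne'
  nonneg := sec_nonneg hR
  le_one := sec_le_one hR
  hom := by
    intro c x hc
    unfold sec
    have e : ∀ a b : ℝ, lf a b (c • x) = c * lf a b x := by
      intro a b; unfold lf; simp only [Pi.smul_apply, smul_eq_mul]; ring
    rw [e, e]
    have e2 : (c * lf p q x) ^ 2 + R * (c * lf p' q' x) ^ 2 =
      c ^ 2 * ((lf p q x) ^ 2 + R * (lf p' q' x) ^ 2) := by ring
    rw [e2, mul_pow, mul_div_mul_left _ _ (by positivity)]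

/-- two different lines are separated -/
lemma two_forms {p q p' q' : ℝ} (r s r' s' : ℝ) (h : p * q' - q * p' ≠ 0) :
    ∃ κ > 0, ∀ κ' ≤ κ, 0 < κ' → ∀ x : Fin 2 → ℝ, x ≠ 0 →
      ¬ ((lf p q x) ^ 2 ≤ κ' * (lf r s x) ^ 2 ∧ (lf p' q' x) ^ 2 ≤ κ' * (lf r' s' x) ^ 2) := by
  have hD : 0 < (p * q' - q * p') ^ 2 := by positivity
  have hP : 0 < p ^ 2 + q ^ 2 + p' ^ 2 + q' ^ 2 := by
    by_contra hn
    have h1 : p = 0 := by nlinarith [sq_nonneg p, sq_nonneg q, sq_nonneg p', sq_nonneg q']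
    have h2 : q = 0 := by nlinarith [sq_nonneg p, sq_nonneg q, sq_nonneg p', sq_nonneg q']
    apply h; rw [h1, h2]; ring
  set P := p ^ 2 + q ^ 2 + p' ^ 2 + q' ^ 2 with hPdef
  set Q := r ^ 2 + s ^ 2 + r' ^ 2 + s' ^ 2 + 1 with hQdef
  have hQ : 0 < Q := by positivity
  refine ⟨(p * q' - q * p') ^ 2 / (2 * P * Q), by positivity, ?_⟩
  rintro κ' hκ hκ0 x hx ⟨h1, h2⟩
  have hX := norm_pos hx
  set X := x 0 ^ 2 + x 1 ^ 2 with hXdef
  have h3 := cramer p q p' q' x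
  have h4 := lf_le r s x
  have h5 := lf_le r' s' x
  rw [← hXdef] at h3 h4 h5
  rw [← hPdef] at h3
  have h6 : (lf p q x) ^ 2 + (lf p' q' x) ^ 2 ≤ κ' * (Q * X) := by
    have : κ' * (lf r s x) ^ 2 + κ' * (lf r' s' x) ^ 2 ≤ κ' * (Q * X) := by
      rw [← mul_add]
      apply mul_le_mul_of_nonneg_left _ hκ0.le
      rw [hQdef]; nlinarith
    linarith
  have h7 : (p * q' - q * p') ^ 2 * X ≤ κ' * (Q * X) * P :=
    h3.trans (mul_le_mul_of_nonneg_right h6 hP.le)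
  have h8 : κ' * (Q * X) * P ≤ (p * q' - q * p') ^ 2 / (2 * P * Q) * (Q * X) * P := by
    apply mul_le_mul_of_nonneg_right _ hP.le
    apply mul_le_mul_of_nonneg_right hκ (by positivity)
  have h9 : (p * q' - q * p') ^ 2 / (2 * P * Q) * (Q * X) * P =
      (p * q' - q * p') ^ 2 * X / 2 := by
    field_simp
  rw [h9] at h8
  nlinarith [mul_pos hD hX]

lemma sec_gt {p q p' q' κ : ℝ} (hκ : 0 < κ) {x : Fin 2 → ℝ}
    (h : 1 / 10 < sec p q p' q' (10 / κ) x) : (lf p' q' x) ^ 2 ≤ κ * (lf p q x) ^ 2 := by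
  unfold sec at h
  set s := (lf p q x) ^ 2 with hs
  set r := (lf p' q' x) ^ 2 with hr
  have hs0 : 0 ≤ s := sq_nonneg _
  have hr0 : 0 ≤ r := sq_nonneg _
  have hR : 0 < 10 / κ := by positivity
  have hden : 0 < s + 10 / κ * r := by
    rcases lt_or_eq_of_le (add_nonneg hs0 (mul_nonneg hR.le hr0)) with h1 | h1
    · exact h1
    · rw [← h1] at h; norm_num at h
  rw [lt_div_iff₀ hden] at h
  have h2 : 10 / κ * r ≤ 9 * s := by nlinarith
  have h3 : r = κ / 10 * (10 / κ * r) := by field_simp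
  rw [h3]
  calc κ / 10 * (10 / κ * r) ≤ κ / 10 * (9 * s) := by
        apply mul_le_mul_of_nonneg_left h2 (by positivity)
    _ ≤ κ * s := by nlinarith [mul_nonneg hκ.le hs0]

/-- the gain along the orbit -/
lemma gain {R K s r : ℝ} (hR : 1 ≤ R) (hK : 90 * R ^ 2 ≤ K) (hs : 0 ≤ s) (hr : 0 ≤ r)
    (hsr : 0 < s + r) : 9 / 10 ≤ K * s / (K * s + R * r) + r / (r + R * s) := by
  have hR0 : 0 < R := by linarith
  have hK0 : 0 < K := by nlinarith
  rcases le_or_gt (r / (10 * R)) s with h | h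
  · have hs0 : 0 < s := by
      rcases lt_or_eq_of_le hs with h1 | h1
      · exact h1
      · rw [← h1] at h hsr
        have : 0 < r / (10 * R) := div_pos (by linarith) (by positivity)
        linarith
    have h1 : r ≤ 10 * R * s := by
      rw [div_le_iff₀ (by positivity)] at h; linarith
    have h2 : 9 / 10 ≤ K * s / (K * s + R * r) := by
      rw [le_div_iff₀ (by positivity)]
      nlinarith [mul_le_mul_of_nonneg_left h1 hR0.le, mul_le_mul_of_nonneg_right hK hs0.le]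
    have h3 : 0 ≤ r / (r + R * s) := by positivity
    linarith
  · have hr0 : 0 < r := by
      rcases lt_or_eq_of_le hr with h1 | h1
      · exact h1
      · rw [← h1] at h; simp at h; linarith
    have h1 : 10 * R * s < r := by
      rw [lt_div_iff₀ (by positivity)] at h; linarith
    have h2 : 9 / 10 ≤ r / (r + R * s) := by
      rw [le_div_iff₀ (by positivity)]
      nlinarith
    have h3 : 0 ≤ K * s / (K * s + R * r) := by positivity
    linarith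

/-- two rational independent conditions -/
lemma irr_zero {L : ℝ} (hL : Irrational L) {m n : ℤ} (h : (m : ℝ) + n * L = 0) :
    m = 0 ∧ n = 0 := by
  have hn : n = 0 := by
    by_contra hn
    apply hL
    refine ⟨-(m : ℚ) / n, ?_⟩
    push_cast
    have : (n : ℝ) ≠ 0 := by exact_mod_cast hn
    field_simp
    linarith
  subst hn
  refine ⟨?_, rfl⟩
  simpa using h

/-- the real root -/
lemma exists_root {t : ℤ} (ht : 2 < |t|) : ∃ L L' : ℝ, L + L' = t ∧ L * L' = 1 ∧ 1 < |L| ∧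
    Irrational L ∧ Irrational L' := by
  have ht3 : 3 ≤ |t| := by omega
  have ht2 : (9 : ℤ) ≤ t ^ 2 := by
    rw [← sq_abs]; nlinarith
  have hns : ¬ IsSquare (t ^ 2 - 4) := by
    rintro ⟨s, hs⟩
    have h1 : s ^ 2 = |t| ^ 2 - 4 := by rw [sq_abs]; linarith [sq s]
    have h2 : |s| ^ 2 = |t| ^ 2 - 4 := by rw [sq_abs s]; exact h1
    have hs0 := abs_nonneg s
    have h3 : |s| < |t| := by nlinarith
    have h4 : |t| - 1 < |s| := by
      by_contra h5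
      have h6 : |s| ≤ |t| - 1 := by omega
      nlinarith
    omega
  have hirr : Irrational (Real.sqrt ((t ^ 2 - 4 : ℤ) : ℝ)) := by
    rw [irrational_sqrt_intCast_iff_of_nonneg (by linarith)]
    exact hns
  set s := Real.sqrt ((t ^ 2 - 4 : ℤ) : ℝ) with hs
  have hs2 : s ^ 2 = (t : ℝ) ^ 2 - 4 := by
    rw [hs, Real.sq_sqrt]
    · push_cast; ring
    · have : (0 : ℤ) ≤ t ^ 2 - 4 := by linarith
      exact_mod_cast this
  have hs0 : 0 ≤ s := Real.sqrt_nonneg _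
  have hs1 : 0 < s := by
    rcases lt_or_eq_of_le hs0 with h | h
    · exact h
    · rw [← h] at hirr; exact absurd hirr (by simp)
  have irrp : Irrational (((t : ℝ) + s) / 2) := by
    have h1 : Irrational (((t : ℤ) : ℝ) + s) := hirr.intCast_add t
    have h2 := h1.div_natCast (m := 2) (by norm_num)
    simpa using h2
  have irrm : Irrational (((t : ℝ) - s) / 2) := by
    have h1 : Irrational (((t : ℤ) : ℝ) - s) := hirr.intCast_sub t
    have h2 := h1.div_natCast (m := 2) (by norm_num)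
    simpa using h2
  rcases le_or_gt 0 t with h | h
  · have ht' : (3 : ℝ) ≤ t := by
      rw [abs_of_nonneg h] at ht3; exact_mod_cast ht3
    refine ⟨((t : ℝ) + s) / 2, ((t : ℝ) - s) / 2, by ring, by nlinarith, ?_, irrp, irrm⟩
    rw [abs_of_pos (by linarith)]; linarith
  · have ht' : (t : ℝ) ≤ -3 := by
      rw [abs_of_neg h] at ht3
      have : t ≤ -3 := by omega
      exact_mod_cast this
    refine ⟨((t : ℝ) - s) / 2, ((t : ℝ) + s) / 2, by ring, by nlinarith, ?_, irrm, irrp⟩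
    rw [abs_of_neg (by linarith)]; linarith

section alg

variable {a b c d b00 b01 b10 b11 : ℤ} {L L' : ℝ}

lemma comm_of_prop (hdet : a * d - b * c = 1) (hb : b ≠ 0)
    (hL : Irrational L) (hL2 : L ^ 2 = (a + d) * L - 1)
    (h : (b : ℝ) * (b * b10 + (L - a) * b11) - (L - a) * (b * b00 + (L - a) * b01) = 0) :
    b * b10 = c * b01 ∧ b * (b11 - b00) = (d - a) * b01 := by
  have hd : (a : ℝ) * d - b * c = 1 := by exact_mod_cast hdet
  have h1 : ((b ^ 2 * b10 - a * b * (b11 - b00) - (a ^ 2 - 1) * b01 : ℤ) : ℝ) +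
      ((b * (b11 - b00) - (d - a) * b01 : ℤ) : ℝ) * L = 0 := by
    push_cast
    linear_combination h + b01 * hL2
  obtain ⟨h2, h3⟩ := irr_zero hL h1
  have h4 : b * (b11 - b00) = (d - a) * b01 := by linarith
  refine ⟨?_, h4⟩
  have h5 : b * (b * b10 - c * b01) = 0 := by
    linear_combination h2 + a * h4 + b01 * hdet
  rcases mul_eq_zero.1 h5 with h6 | h6
  · exact absurd h6 hb
  · linarith

lemma anti_of_prop (hdet : a * d - b * c = 1) (hb : b ≠ 0)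
    (hL : Irrational L) (hsum : L + L' = ((a + d : ℤ) : ℝ)) (hprod : L * L' = 1)
    (h : (b : ℝ) * (b * b10 + (L' - a) * b11) - (L - a) * (b * b00 + (L' - a) * b01) = 0) :
    b00 + b11 = 0 ∧ a * b00 + b * b10 + c * b01 + d * b11 = 0 := by
  have hd : (a : ℝ) * d - b * c = 1 := by exact_mod_cast hdet
  have hbr : (b : ℝ) ≠ 0 := by exact_mod_cast hb
  push_cast at hsum
  have hL' : L' = a + d - L := by linarith
  have h1 : (b : ℝ) * (((a * b00 + b * b10 + c * b01 + d * b11 : ℤ) : ℝ) +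
      ((-(b00 + b11) : ℤ) : ℝ) * L) = 0 := by
    push_cast
    rw [hL'] at h hprod
    linear_combination h + b01 * hprod - b01 * hd
  have h2 := (mul_eq_zero.1 h1).resolve_left hbr
  obtain ⟨h3, h4⟩ := irr_zero hL h2
  exact ⟨by linarith, h3⟩

end alg

lemma comm_matrix {A B : Matrix (Fin 2) (Fin 2) ℤ} (hb : A 0 1 ≠ 0)
    (h1 : A 0 1 * B 1 0 = A 1 0 * B 0 1)
    (h2 : A 0 1 * (B 1 1 - B 0 0) = (A 1 1 - A 0 0) * B 0 1) : B * A = A * B := by
  have h3 : A 1 0 * (B 1 1 - B 0 0) = (A 1 1 - A 0 0) * B 1 0 := by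
    have : A 0 1 * (A 1 0 * (B 1 1 - B 0 0) - (A 1 1 - A 0 0) * B 1 0) = 0 := by
      linear_combination A 1 0 * h2 - (A 1 1 - A 0 0) * h1
    rcases mul_eq_zero.1 this with h | h
    · exact absurd h hb
    · linarith
  ext i j
  fin_cases i <;> fin_cases j <;>
    simp only [Matrix.mul_apply, Fin.sum_univ_two, Fin.zero_eta, Fin.mk_one, Fin.isValue]
  · linear_combination -h1
  · linear_combination -h2
  · linear_combination h3
  · linear_combination h1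

lemma anti_matrix {A B : Matrix (Fin 2) (Fin 2) ℤ} (hd : A 0 0 * A 1 1 - A 0 1 * A 1 0 = 1)
    (h1 : B 0 0 + B 1 1 = 0)
    (h2 : A 0 0 * B 0 0 + A 0 1 * B 1 0 + A 1 0 * B 0 1 + A 1 1 * B 1 1 = 0) :
    A * B * A = B := by
  ext i j
  fin_cases i <;> fin_cases j <;>
    simp only [Matrix.mul_apply, Fin.sum_univ_two, Fin.zero_eta, Fin.mk_one, Fin.isValue]
  · linear_combination A 0 0 * h2 - B 1 1 * hd - h1
  · linear_combination A 0 1 * h2 + B 0 1 * hd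
  · linear_combination A 1 0 * h2 + B 1 0 * hd
  · linear_combination A 1 1 * h2 - B 0 0 * hd - h1

/-- transposed action -/
def tact (A : Matrix (Fin 2) (Fin 2) ℤ) (x : Fin 2 → ℝ) : Fin 2 → ℝ :=
  (A.map (Int.cast : ℤ → ℝ))ᵀ *ᵥ x

lemma tact_mul (A B : Matrix (Fin 2) (Fin 2) ℤ) (x : Fin 2 → ℝ) :
    tact (A * B) x = tact B (tact A x) := by
  unfold tact
  rw [Matrix.mulVec_mulVec, ← Matrix.transpose_mul]
  congr 2
  have := Matrix.map_mul (L := A) (M := B) (f := Int.castRingHom ℝ)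
  simpa using this

lemma tact_one (x : Fin 2 → ℝ) : tact 1 x = x := by
  unfold tact
  rw [Matrix.map_one _ (by simp) (by simp)]
  simp

lemma tact_apply0 (A : Matrix (Fin 2) (Fin 2) ℤ) (x : Fin 2 → ℝ) :
    tact A x 0 = A 0 0 * x 0 + A 1 0 * x 1 := by
  simp [tact, Matrix.mulVec, dotProduct, Fin.sum_univ_two]

lemma tact_apply1 (A : Matrix (Fin 2) (Fin 2) ℤ) (x : Fin 2 → ℝ) :
    tact A x 1 = A 0 1 * x 0 + A 1 1 * x 1 := by
  simp [tact, Matrix.mulVec, dotProduct, Fin.sum_univ_two]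

/-- eigenforms -/
lemma lf_tact {A : Matrix (Fin 2) (Fin 2) ℤ} (hd : A 0 0 * A 1 1 - A 0 1 * A 1 0 = 1) {L : ℝ}
    (hL : L ^ 2 = (A 0 0 + A 1 1) * L - 1) (x : Fin 2 → ℝ) :
    lf (A 0 1) (L - A 0 0) (tact A x) = L * lf (A 0 1) (L - A 0 0) x := by
  have hd' : (A 0 0 : ℝ) * A 1 1 - A 0 1 * A 1 0 = 1 := by exact_mod_cast hd
  unfold lf
  rw [tact_apply0, tact_apply1]
  linear_combination (-x 1) * hL - x 1 * hd'

lemma lf_tact_pow {A : Matrix (Fin 2) (Fin 2) ℤ} (hd : A 0 0 * A 1 1 - A 0 1 * A 1 0 = 1) {L : ℝ}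
    (hL : L ^ 2 = (A 0 0 + A 1 1) * L - 1) (N : ℕ) (x : Fin 2 → ℝ) :
    lf (A 0 1) (L - A 0 0) (tact (A ^ N) x) = L ^ N * lf (A 0 1) (L - A 0 0) x := by
  induction N generalizing x with
  | zero => simp [tact_one]
  | succ N ih =>
    rw [pow_succ, tact_mul, lf_tact hd hL, ih]
    ring

lemma lf_tact_B (B : Matrix (Fin 2) (Fin 2) ℤ) (p q : ℝ) (x : Fin 2 → ℝ) :
    lf p q (tact B x) = lf (p * B 0 0 + q * B 0 1) (p * B 1 0 + q * B 1 1) x := by
  unfold lf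
  rw [tact_apply0, tact_apply1]
  ring

/-- the four sector functions are small except one -/
lemma four_small {u1 u2 u3 u4 : ℝ}
    (c1 : u1 ≤ 1) (c2 : u2 ≤ 1) (c3 : u3 ≤ 1) (c4 : u4 ≤ 1)
    (h12 : ¬ (1 / 10 < u1 ∧ 1 / 10 < u2)) (h13 : ¬ (1 / 10 < u1 ∧ 1 / 10 < u3))
    (h14 : ¬ (1 / 10 < u1 ∧ 1 / 10 < u4)) (h23 : ¬ (1 / 10 < u2 ∧ 1 / 10 < u3))
    (h24 : ¬ (1 / 10 < u2 ∧ 1 / 10 < u4)) (h34 : ¬ (1 / 10 < u3 ∧ 1 / 10 < u4)) :
    u1 + u2 + u3 + u4 ≤ 13 / 10 := by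
  by_cases a1 : 1 / 10 < u1
  · have a2 : ¬ 1 / 10 < u2 := fun h => h12 ⟨a1, h⟩
    have a3 : ¬ 1 / 10 < u3 := fun h => h13 ⟨a1, h⟩
    have a4 : ¬ 1 / 10 < u4 := fun h => h14 ⟨a1, h⟩
    push Not at a2 a3 a4
    linarith
  by_cases a2 : 1 / 10 < u2
  · have a3 : ¬ 1 / 10 < u3 := fun h => h23 ⟨a2, h⟩
    have a4 : ¬ 1 / 10 < u4 := fun h => h24 ⟨a2, h⟩
    push Not at a1 a3 a4
    linarith
  by_cases a3 : 1 / 10 < u3
  · have a4 : ¬ 1 / 10 < u4 := fun h => h34 ⟨a3, h⟩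
    push Not at a1 a2 a4
    linarith
  push Not at a1 a2 a3
  linarith

/-- value of the sector function along the orbit -/
lemma sec_pow {A : Matrix (Fin 2) (Fin 2) ℤ} (hd : A 0 0 * A 1 1 - A 0 1 * A 1 0 = 1) {L L' : ℝ}
    (hL : L ^ 2 = (A 0 0 + A 1 1) * L - 1) (hL' : L' ^ 2 = (A 0 0 + A 1 1) * L' - 1)
    (hprod : L * L' = 1) (N : ℕ) (R : ℝ) (x : Fin 2 → ℝ) :
    sec (A 0 1) (L - A 0 0) (A 0 1) (L' - A 0 0) R (tact (A ^ N) x) =
      (L ^ 4) ^ N * (lf (A 0 1) (L - A 0 0) x) ^ 2 /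
        ((L ^ 4) ^ N * (lf (A 0 1) (L - A 0 0) x) ^ 2 + R * (lf (A 0 1) (L' - A 0 0) x) ^ 2) := by
  unfold sec
  rw [lf_tact_pow hd hL, lf_tact_pow hd hL']
  set s := lf (A 0 1) (L - A 0 0) x
  set r := lf (A 0 1) (L' - A 0 0) x
  have hL0 : L ≠ 0 := by rintro rfl; simp at hprod
  have hM : (L ^ N) ^ 2 ≠ 0 := by positivity
  rw [← mul_div_mul_left ((L ^ N * s) ^ 2) _ hM]
  have hp : L ^ N * L' ^ N = 1 := by rw [← mul_pow, hprod, one_pow]
  have e1 : (L ^ N) ^ 2 * (L ^ N * s) ^ 2 = (L ^ 4) ^ N * s ^ 2 := by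
    rw [← pow_mul L 4 N]
    ring
  have e2 : (L ^ N) ^ 2 * ((L ^ N * s) ^ 2 + R * (L' ^ N * r) ^ 2) =
      (L ^ 4) ^ N * s ^ 2 + R * r ^ 2 := by
    rw [mul_add, e1]
    have : (L ^ N) ^ 2 * (R * (L' ^ N * r) ^ 2) = R * r ^ 2 * (L ^ N * L' ^ N) ^ 2 := by ring
    rw [this, hp]; ring
  rw [e1, e2]

theorem exists_sectors (A B B' : Matrix (Fin 2) (Fin 2) ℤ) (hdet : A.det = 1)
    (htr : 2 < |A.trace|) (hB : B * B' = 1) (h1 : B * A ≠ A * B) (h2 : A * B * A ≠ B) :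
    ∃ (N : ℕ) (u v : (Fin 2 → ℝ) → ℝ), IsSector u ∧ IsSector v ∧
      ∀ x : Fin 2 → ℝ, x ≠ 0 → 1 / 2 ≤
        (u (((A ^ N).map (Int.cast : ℤ → ℝ))ᵀ *ᵥ x) - u x) +
        (v (((B * A ^ N * B').map (Int.cast : ℤ → ℝ))ᵀ *ᵥ x) - v x) := by
  have hB' : B' * B = 1 := mul_eq_one_comm.1 hB
  have hd : A 0 0 * A 1 1 - A 0 1 * A 1 0 = 1 := by
    rw [Matrix.det_fin_two] at hdet; exact hdet
  have htr' : A.trace = A 0 0 + A 1 1 := Matrix.trace_fin_two A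
  obtain ⟨L, L', hsum, hprod, hL1, hLi, hLi'⟩ := exists_root htr
  rw [htr'] at hsum htr
  have hsum2 : L + L' = A 0 0 + A 1 1 := by rw [hsum]; push_cast; ring
  have hL2 : L ^ 2 = (A 0 0 + A 1 1) * L - 1 := by
    rw [← hsum2]; linear_combination -hprod
  have hL2' : L' ^ 2 = (A 0 0 + A 1 1) * L' - 1 := by
    rw [← hsum2]; linear_combination -hprod
  have hb : A 0 1 ≠ 0 := by
    intro hb
    rw [hb] at hd
    have h3 : A 0 0 * A 1 1 = 1 := by linarith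
    rcases Int.mul_eq_one_iff_eq_one_or_neg_one.1 h3 with ⟨h4, h5⟩ | ⟨h4, h5⟩
    · rw [h4, h5] at htr; norm_num at htr
    · rw [h4, h5] at htr; norm_num at htr
  have hbr : (A 0 1 : ℝ) ≠ 0 := by exact_mod_cast hb
  have hLL : L' - L ≠ 0 := by
    intro h
    have h3 : L' = L := by linarith
    rw [h3] at hprod
    have h4 : |L| ^ 2 = 1 := by rw [sq_abs, sq, hprod]
    nlinarith
  have hBd : (B 0 0 : ℝ) * B 1 1 - B 0 1 * B 1 0 ≠ 0 := by
    have h3 : B.det * B'.det = 1 := by rw [← Matrix.det_mul, hB, Matrix.det_one]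
    rw [Matrix.det_fin_two] at h3
    intro h4
    have h5 : B 0 0 * B 1 1 - B 0 1 * B 1 0 = 0 := by exact_mod_cast h4
    rw [h5] at h3; simp at h3
  -- the six determinants
  have dpq : (A 0 1 : ℝ) * (L' - A 0 0) - (L - A 0 0) * A 0 1 ≠ 0 := by
    have : (A 0 1 : ℝ) * (L' - A 0 0) - (L - A 0 0) * A 0 1 = A 0 1 * (L' - L) := by ring
    rw [this]; exact mul_ne_zero hbr hLL
  set p0 : ℝ := A 0 1 * B 0 0 + (L - A 0 0) * B 0 1 with hp0
  set p1 : ℝ := A 0 1 * B 1 0 + (L - A 0 0) * B 1 1 with hp1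
  set q0 : ℝ := A 0 1 * B 0 0 + (L' - A 0 0) * B 0 1 with hq0
  set q1 : ℝ := A 0 1 * B 1 0 + (L' - A 0 0) * B 1 1 with hq1
  have dpq' : p0 * q1 - p1 * q0 ≠ 0 := by
    have : p0 * q1 - p1 * q0 = (A 0 1 * (L' - L)) * ((B 0 0 : ℝ) * B 1 1 - B 0 1 * B 1 0) := by
      rw [hp0, hp1, hq0, hq1]; ring
    rw [this]; exact mul_ne_zero (mul_ne_zero hbr hLL) hBd
  have dpp : (A 0 1 : ℝ) * p1 - (L - A 0 0) * p0 ≠ 0 := by
    intro h
    obtain ⟨h3, h4⟩ := comm_of_prop hd hb hLi hL2 h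
    exact h1 (comm_matrix hb h3 h4)
  have dqq : (A 0 1 : ℝ) * q1 - (L' - A 0 0) * q0 ≠ 0 := by
    intro h
    obtain ⟨h3, h4⟩ := comm_of_prop hd hb hLi' hL2' h
    exact h1 (comm_matrix hb h3 h4)
  have dpq2 : (A 0 1 : ℝ) * q1 - (L - A 0 0) * q0 ≠ 0 := by
    intro h
    obtain ⟨h3, h4⟩ := anti_of_prop hd hb hLi hsum hprod h
    exact h2 (anti_matrix hd h3 h4)
  have dqp2 : (A 0 1 : ℝ) * p1 - (L' - A 0 0) * p0 ≠ 0 := by
    intro h
    obtain ⟨h3, h4⟩ := anti_of_prop hd hb hLi' (by rw [add_comm]; exact hsum)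
      (by rw [mul_comm]; exact hprod) h
    exact h2 (anti_matrix hd h3 h4)
  -- constants
  obtain ⟨κ1, k1, s1⟩ := two_forms (A 0 1) (L' - A 0 0) (A 0 1) (L - A 0 0) dpq
  obtain ⟨κ2, k2, s2⟩ := two_forms q0 q1 p0 p1 dpq'
  obtain ⟨κ3, k3, s3⟩ := two_forms (A 0 1) (L' - A 0 0) q0 q1 dpp
  obtain ⟨κ4, k4, s4⟩ := two_forms (A 0 1) (L - A 0 0) p0 p1 dqq
  obtain ⟨κ5, k5, s5⟩ := two_forms (A 0 1) (L' - A 0 0) p0 p1 dpq2
  obtain ⟨κ6, k6, s6⟩ := two_forms (A 0 1) (L - A 0 0) q0 q1 dqp2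
  obtain ⟨κ, hκ0, hκ10, m1, m2, m3, m4, m5, m6⟩ : ∃ κ : ℝ, 0 < κ ∧ κ ≤ 10 ∧ κ ≤ κ1 ∧ κ ≤ κ2 ∧
      κ ≤ κ3 ∧ κ ≤ κ4 ∧ κ ≤ κ5 ∧ κ ≤ κ6 := by
    refine ⟨min 10 (min κ1 (min κ2 (min κ3 (min κ4 (min κ5 κ6))))), ?_, ?_, ?_, ?_, ?_, ?_, ?_, ?_⟩
    · simp only [lt_min_iff]
      exact ⟨by norm_num, k1, k2, k3, k4, k5, k6⟩
    · exact min_le_left _ _
    · exact (min_le_right _ _).trans (min_le_left _ _)
    · exact (min_le_right _ _).trans ((min_le_right _ _).trans (min_le_left _ _))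
    · exact (min_le_right _ _).trans ((min_le_right _ _).trans ((min_le_right _ _).trans
        (min_le_left _ _)))
    · exact (min_le_right _ _).trans ((min_le_right _ _).trans ((min_le_right _ _).trans
        ((min_le_right _ _).trans (min_le_left _ _))))
    · exact (min_le_right _ _).trans ((min_le_right _ _).trans ((min_le_right _ _).trans
        ((min_le_right _ _).trans ((min_le_right _ _).trans (min_le_left _ _)))))
    · exact (min_le_right _ _).trans ((min_le_right _ _).trans ((min_le_right _ _).trans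
        ((min_le_right _ _).trans ((min_le_right _ _).trans (min_le_right _ _)))))
  have hR1 : 1 ≤ 10 / κ := by rw [le_div_iff₀ hκ0]; linarith
  have hR0 : 0 < 10 / κ := by positivity
  have hL4 : 1 < L ^ 4 := by
    have : L ^ 4 = |L| ^ 4 := by
      rw [show (4 : ℕ) = 2 * 2 from rfl, pow_mul, pow_mul, sq_abs]
    rw [this]; exact one_lt_pow₀ hL1 (by norm_num)
  obtain ⟨N, hN⟩ := pow_unbounded_of_one_lt (90 * (10 / κ) ^ 2) hL4
  set R := 10 / κ with hRdef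
  refine ⟨N, sec (A 0 1) (L - A 0 0) (A 0 1) (L' - A 0 0) R, sec p0 p1 q0 q1 R,
    isSector_sec hR0 dpq, isSector_sec hR0 dpq', ?_⟩
  intro x hx
  change 1 / 2 ≤ (sec (A 0 1) (L - A 0 0) (A 0 1) (L' - A 0 0) R (tact (A ^ N) x) - _) +
    (sec p0 p1 q0 q1 R (tact (B * A ^ N * B') x) - _)
  have ep : ∀ y, lf p0 p1 y = lf (A 0 1) (L - A 0 0) (tact B y) := by
    intro y; rw [lf_tact_B]
  have eq : ∀ y, lf q0 q1 y = lf (A 0 1) (L' - A 0 0) (tact B y) := by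
    intro y; rw [lf_tact_B]
  have ev : sec p0 p1 q0 q1 R (tact (B * A ^ N * B') x) =
      sec (A 0 1) (L - A 0 0) (A 0 1) (L' - A 0 0) R (tact (A ^ N) (tact B x)) := by
    unfold sec
    rw [ep, eq, ← tact_mul, mul_assoc, hB', mul_one, tact_mul]
  rw [ev, sec_pow hd hL2 hL2' hprod, sec_pow hd hL2 hL2' hprod, ← ep, ← eq]
  have dpos : 0 < (lf (A 0 1) (L - A 0 0) x) ^ 2 + (lf (A 0 1) (L' - A 0 0) x) ^ 2 := by
    have := den_pos (R := 1) one_pos dpq hx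
    linarith
  have dpos' : 0 < (lf p0 p1 x) ^ 2 + (lf q0 q1 x) ^ 2 := by
    have := den_pos (R := 1) one_pos dpq' hx
    linarith
  have g1 := gain hR1 hN.le (sq_nonneg (lf (A 0 1) (L - A 0 0) x))
    (sq_nonneg (lf (A 0 1) (L' - A 0 0) x)) dpos
  have g2 := gain hR1 hN.le (sq_nonneg (lf p0 p1 x)) (sq_nonneg (lf q0 q1 x)) dpos'
  have f := four_small (u1 := sec (A 0 1) (L - A 0 0) (A 0 1) (L' - A 0 0) R x)
    (u2 := sec (A 0 1) (L' - A 0 0) (A 0 1) (L - A 0 0) R x)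
    (u3 := sec p0 p1 q0 q1 R x) (u4 := sec q0 q1 p0 p1 R x)
    (sec_le_one hR0 x) (sec_le_one hR0 x) (sec_le_one hR0 x) (sec_le_one hR0 x)
    (fun h => s1 κ m1 hκ0 x hx ⟨sec_gt hκ0 h.2, sec_gt hκ0 h.1⟩)
    (fun h => s4 κ m4 hκ0 x hx ⟨sec_gt hκ0 h.1, sec_gt hκ0 h.2⟩)
    (fun h => s6 κ m6 hκ0 x hx ⟨sec_gt hκ0 h.1, sec_gt hκ0 h.2⟩)
    (fun h => s5 κ m5 hκ0 x hx ⟨sec_gt hκ0 h.1, sec_gt hκ0 h.2⟩)
    (fun h => s3 κ m3 hκ0 x hx ⟨sec_gt hκ0 h.1, sec_gt hκ0 h.2⟩)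
    (fun h => s2 κ m2 hκ0 x hx ⟨sec_gt hκ0 h.2, sec_gt hκ0 h.1⟩)
  have e1 : sec (A 0 1) (L' - A 0 0) (A 0 1) (L - A 0 0) R x =
    (lf (A 0 1) (L' - A 0 0) x) ^ 2 / ((lf (A 0 1) (L' - A 0 0) x) ^ 2 +
      R * (lf (A 0 1) (L - A 0 0) x) ^ 2) := rfl
  have e2 : sec q0 q1 p0 p1 R x =
    (lf q0 q1 x) ^ 2 / ((lf q0 q1 x) ^ 2 + R * (lf p0 p1 x) ^ 2) := rfl
  rw [← e1] at g1
  rw [← e2] at g2
  linarith

end Pool.Agent.Helper31.HG
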